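import Pool.Agent.Q24.PG.Count

/-!
The regular wreath product `C_p wr Q` written additively and first consequences of lift counting.
-/

namespace Pool.Agent.Q24.PG

/-- the regular wreath product -/
@[ext]
structure Wr (p : ℕ) (Q : Type) where
  f : Q → ZMod p
  q : Q

namespace Wr

variable {p : ℕ} {Q : Type} [Group Q]

instance : Mul (Wr p Q) := ⟨fun x y => ⟨fun z => x.f z + y.f (x.q⁻¹ * z), x.q * y.q⟩⟩
instance : One (Wr p Q) := ⟨⟨0, 1⟩⟩
instance : Inv (Wr p Q) := ⟨fun x => ⟨fun z => -x.f (x.q * z), x.q⁻¹⟩⟩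

@[simp] theorem mul_f (x y : Wr p Q) (z : Q) : (x * y).f z = x.f z + y.f (x.q⁻¹ * z) := rfl
@[simp] theorem mul_q (x y : Wr p Q) : (x * y).q = x.q * y.q := rfl
@[simp] theorem one_f (z : Q) : (1 : Wr p Q).f z = 0 := rfl
@[simp] theorem one_q : (1 : Wr p Q).q = 1 := rfl
@[simp] theorem inv_f (x : Wr p Q) (z : Q) : (x⁻¹).f z = -x.f (x.q * z) := rfl
@[simp] theorem inv_q (x : Wr p Q) : (x⁻¹).q = x.q⁻¹ := rfl

instance : Group (Wr p Q) where
  mul_assoc x y z := by
    ext
    · simp [add_assoc, mul_assoc]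
    · simp [mul_assoc]
  one_mul x := by ext <;> simp
  mul_one x := by ext <;> simp
  inv_mul_cancel x := by ext <;> simp

instance [Finite Q] [NeZero p] : Finite (Wr p Q) := by
  apply Finite.of_injective (fun x : Wr p Q => (x.f, x.q))
  intro x y h
  exact Wr.ext (congrArg Prod.fst h) (congrArg Prod.snd h)

/-- the projection -/
def pr (p : ℕ) (Q : Type) [Group Q] : Wr p Q →* Q where
  toFun x := x.q
  map_one' := rfl
  map_mul' _ _ := rfl

theorem pr_surj : Function.Surjective (pr p Q) := fun q => ⟨⟨0, q⟩, rfl⟩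

/-- the section -/
def sec (p : ℕ) (Q : Type) [Group Q] : Q →* Wr p Q where
  toFun q := ⟨0, q⟩
  map_one' := rfl
  map_mul' x y := by ext <;> simp

/-- the kernel of the projection -/
def kerEquiv (p : ℕ) (Q : Type) [Group Q] : (pr p Q).ker ≃* (Q → Multiplicative (ZMod p)) where
  toFun x := fun z => Multiplicative.ofAdd (x.1.f z)
  invFun v := ⟨⟨fun z => (v z).toAdd, 1⟩, rfl⟩
  left_inv x := by
    apply Subtype.ext
    have : x.1.q = 1 := x.2
    ext
    · rfl
    · exact this.symm
  right_inv v := by ext z; rfl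
  map_mul' x y := by
    have h : x.1.q = 1 := x.2
    funext z
    change Multiplicative.ofAdd (x.1.f z + y.1.f (x.1.q⁻¹ * z)) = _
    rw [h, inv_one, one_mul]
    rfl

theorem card_ker [Finite Q] [NeZero p] : Nat.card (pr p Q).ker = p ^ Nat.card Q := by
  rw [Nat.card_congr (kerEquiv p Q).toEquiv, Nat.card_fun]
  congr 1
  change Nat.card (ZMod p) = p
  rw [Nat.card_eq_fintype_card, ZMod.card]

theorem card_hom_ker (A : Type) [Group A] [Finite Q] :
    Nat.card (A →* (pr p Q).ker) = Nat.card (A →* Multiplicative (ZMod p)) ^ Nat.card Q := by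
  rw [← Nat.card_fun]
  apply Nat.card_congr
  exact
    { toFun := fun f z => (Pi.evalMonoidHom _ z).comp ((kerEquiv p Q).toMonoidHom.comp f)
      invFun := fun F => (kerEquiv p Q).symm.toMonoidHom.comp (MonoidHom.pi F)
      left_inv := fun f => by
        apply MonoidHom.ext
        intro x
        exact (kerEquiv p Q).symm_apply_apply (f x)
      right_inv := fun F => by
        funext z
        ext x
        have := congrFun ((kerEquiv p Q).apply_symm_apply (fun z => F z x)) z
        exact this }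

/-- translation -/
def tr (v : Q → ZMod p) : Wr p Q := ⟨v, 1⟩

/-- the lift given by a function `v` -/
def twist {B : Type} [Group B] (φ : B →* Q) (v : Q → ZMod p) : B →* Wr p Q :=
  (MulAut.conj (tr v)).toMonoidHom.comp ((sec p Q).comp φ)

theorem twist_q {B : Type} [Group B] (φ : B →* Q) (v : Q → ZMod p) (b : B) :
    (twist φ v b).q = φ b := by
  change (tr v * ⟨0, φ b⟩ * (tr v)⁻¹).q = φ b
  simp [tr]

theorem twist_f {B : Type} [Group B] (φ : B →* Q) (v : Q → ZMod p) (b : B) (z : Q) :
    (twist φ v b).f z = v z - v ((φ b)⁻¹ * z) := by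
  change (tr v * ⟨0, φ b⟩ * (tr v)⁻¹).f z = _
  simp [tr, sub_eq_add_neg]

end Wr

theorem fg_coprod (A B : Type) [Group A] [Group B] [hA : Group.FG A] [hB : Group.FG B] :
    Group.FG (Monoid.Coprod A B) := by
  obtain ⟨S, hS, hSf⟩ := Group.fg_iff.1 hA
  obtain ⟨T, hT, hTf⟩ := Group.fg_iff.1 hB
  rw [Group.fg_iff]
  refine ⟨(Monoid.Coprod.inl (M := A) (N := B)) '' S ∪ (Monoid.Coprod.inr (M := A) (N := B)) '' T,
    ?_, (hSf.image _).union (hTf.image _)⟩
  rw [Subgroup.closure_union, ← MonoidHom.map_closure, ← MonoidHom.map_closure, hS, hT,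
    ← MonoidHom.range_eq_map, ← MonoidHom.range_eq_map, Monoid.Coprod.range_inl_sup_range_inr]

instance (A B : Type) [Group A] [Group B] [Group.FG A] [Group.FG B] :
    Group.FG (Monoid.Coprod A B) := fg_coprod A B

/-- If `A * B` has the same finite quotients as a group with `d` generators and `A` has `p ^ d`
homomorphisms to the group of order `p`, then `B` is trivial. -/
theorem trivial_factor {A B Γ : Type} [Group A] [Group B] [Group Γ] [Group.FG A] [Group.FG B]
    [Group.FG Γ] (h : SameFQ (Monoid.Coprod A B) Γ) {d : ℕ} (hd : GenBy Γ d) (p : ℕ)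
    (hp : p.Prime) (hA : p ^ d ≤ Nat.card (A →* Multiplicative (ZMod p))) (hB : ResFin B) (b : B) :
    b = 1 := by
  by_contra hb
  obtain ⟨Q, _, _, φ, hφ⟩ := hB b hb
  have : NeZero p := ⟨hp.ne_zero⟩
  let g : Monoid.Coprod A B →* Q := Monoid.Coprod.lift 1 φ
  obtain ⟨R, _, _, r, s, hr, hs, hL, -, -, -, hcard⟩ := transfer h (Wr.pr p Q)
  obtain ⟨g', hg'⟩ := hL g
  have h1 := hcard g'
  rw [hg', card_lifts_coprod] at h1
  have e1 : g.comp Monoid.Coprod.inl = 1 := Monoid.Coprod.lift_comp_inl _ _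
  have e2 : g.comp Monoid.Coprod.inr = φ := Monoid.Coprod.lift_comp_inr _ _
  rw [e1, e2, card_lifts_one, Wr.card_hom_ker] at h1
  have h2 := card_lifts_le (Wr.pr p Q) Wr.pr_surj hd (g'.comp s)
  rw [← h1, Wr.card_ker] at h2
  have h3 : 2 ≤ Nat.card (Lifts (Wr.pr p Q) φ) := by
    have hfin : Finite (Lifts (Wr.pr p Q) φ) := Subtype.finite
    classical
    let v : Q → ZMod p := Pi.single 1 1
    have : Function.Injective (fun i : Fin 2 =>
        (⟨Wr.twist φ (if i = 0 then 0 else v), by
          ext b; exact Wr.twist_q _ _ b⟩ : Lifts (Wr.pr p Q) φ)) := by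
      intro i j hij
      by_contra hne
      have hv : Wr.twist φ v = Wr.twist φ (0 : Q → ZMod p) := by
        fin_cases i <;> fin_cases j
        · exact absurd rfl hne
        · exact (congrArg Subtype.val hij).symm
        · exact congrArg Subtype.val hij
        · exact absurd rfl hne
      have h4 := congrArg (fun F : B →* Wr p Q => (F b).f 1) hv
      simp only [Wr.twist_f] at h4
      have h5 : v ((φ b)⁻¹ * 1) = 0 := by
        rw [mul_one]
        apply Pi.single_eq_of_ne
        intro h6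
        exact hφ (inv_eq_one.1 h6)
      rw [h5] at h4
      have h6 : v 1 = 1 := Pi.single_eq_same _ _
      rw [h6] at h4
      simp at h4
      have : Fact p.Prime := ⟨hp⟩
      exact one_ne_zero h4
    have h7 := Nat.card_le_card_of_injective _ this
    simpa using h7
  have h4 : (p ^ d) ^ Nat.card Q ≤ Nat.card (A →* Multiplicative (ZMod p)) ^ Nat.card Q :=
    Nat.pow_le_pow_left hA _
  have h5 : 0 < (p ^ d) ^ Nat.card Q := pow_pos (pow_pos hp.pos _) _
  have h6 : (p ^ Nat.card Q) ^ d = (p ^ d) ^ Nat.card Q := by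
    rw [← pow_mul, ← pow_mul, mul_comm]
  rw [h6] at h2
  nlinarith [Nat.mul_le_mul h4 h3]

end Pool.Agent.Q24.PG
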